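import Mathlib

set_option autoImplicit false

/-!
# Counting sequences of pairs of vectors over `F_2` with prescribed products
-/

open Finset

namespace Pool.Agent.T2H11.RW

/-- vectors -/
abbrev Vec (r : ℕ) : Type := Fin r → ZMod 2

variable {r : ℕ}

/-- the vectors with product `c` with all elements of `L` -/
def sol (c : ZMod 2) (L : Finset (Vec r)) : Finset (Vec r) :=
  univ.filter (fun w => ∀ u ∈ L, u ⬝ᵥ w = c)

/-- the orthogonal space -/
def ann (L : Finset (Vec r)) : Finset (Vec r) := univ.filter (fun w => ∀ u ∈ L, u ⬝ᵥ w = 0)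

/-- the double orthogonal space -/
def perp (L : Finset (Vec r)) : Finset (Vec r) := univ.filter (fun u => ∀ a ∈ ann L, u ⬝ᵥ a = 0)

lemma mem_sol {c : ZMod 2} {L : Finset (Vec r)} {w : Vec r} :
    w ∈ sol c L ↔ ∀ u ∈ L, u ⬝ᵥ w = c := by simp [sol]

lemma mem_ann {L : Finset (Vec r)} {w : Vec r} : w ∈ ann L ↔ ∀ u ∈ L, u ⬝ᵥ w = 0 := by simp [ann]

lemma mem_perp {L : Finset (Vec r)} {u : Vec r} : u ∈ perp L ↔ ∀ a ∈ ann L, u ⬝ᵥ a = 0 := by
  simp [perp]

lemma zero_mem_ann (L : Finset (Vec r)) : (0 : Vec r) ∈ ann L := by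
  rw [mem_ann]; intro u _; exact dotProduct_zero u

lemma add_mem_ann {L : Finset (Vec r)} {a b : Vec r} (ha : a ∈ ann L) (hb : b ∈ ann L) :
    a + b ∈ ann L := by
  rw [mem_ann] at *
  intro u hu
  rw [dotProduct_add, ha u hu, hb u hu, add_zero]

lemma card_sol_le (c : ZMod 2) (L : Finset (Vec r)) : (sol c L).card ≤ (ann L).card := by
  rcases (sol c L).eq_empty_or_nonempty with h | ⟨w0, h0⟩
  · rw [h]; simp
  · refine card_le_card_of_injOn (fun w => w - w0) ?_ ?_
    · intro w hw
      rw [mem_coe, mem_sol] at hw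
      rw [mem_sol] at h0
      show w - w0 ∈ ann L
      rw [mem_ann]
      intro u hu
      rw [dotProduct_sub, hw u hu, h0 u hu, sub_self]
    · intro a _ b _ hab
      exact sub_left_injective hab

lemma ne_zero_eq_one {x : ZMod 2} (h : x ≠ 0) : x = 1 := by
  revert h; revert x; decide

lemma add_self_vec (a : Vec r) : a + a = 0 := by
  funext i
  exact CharTwo.add_self_eq_zero (a i)

/-- a vector outside the double orthogonal space halves the orthogonal space -/
lemma halve {L : Finset (Vec r)} {u : Vec r} (hu : u ∉ perp L) :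
    (ann L).card = 2 * (ann (insert u L)).card := by
  rw [mem_perp] at hu
  push Not at hu
  obtain ⟨a0, ha0, hne⟩ := hu
  have h1 : u ⬝ᵥ a0 = 1 := ne_zero_eq_one hne
  have e1 : ann (insert u L) = (ann L).filter (fun w => u ⬝ᵥ w = 0) := by
    ext w
    rw [mem_ann, mem_filter, mem_ann]
    constructor
    · intro h
      exact ⟨fun v hv => h v (mem_insert_of_mem hv), h u (mem_insert_self u L)⟩
    · rintro ⟨h, h'⟩ v hv
      rcases mem_insert.1 hv with rfl | hv
      · exact h'
      · exact h v hv
  have e2 : ((ann L).filter (fun w => ¬ u ⬝ᵥ w = 0)).card =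
      ((ann L).filter (fun w => u ⬝ᵥ w = 0)).card := by
    refine card_bij' (fun w _ => w + a0) (fun w _ => w + a0) ?_ ?_ ?_ ?_
    · intro w hw
      rw [mem_filter] at hw ⊢
      refine ⟨add_mem_ann hw.1 ha0, ?_⟩
      rw [dotProduct_add, h1, ne_zero_eq_one hw.2]
      exact CharTwo.add_self_eq_zero (1 : ZMod 2)
    · intro w hw
      rw [mem_filter] at hw ⊢
      refine ⟨add_mem_ann hw.1 ha0, ?_⟩
      rw [dotProduct_add, h1, hw.2, zero_add]
      exact one_ne_zero
    · intro w _
      rw [add_assoc, add_self_vec, add_zero]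
    · intro w _
      rw [add_assoc, add_self_vec, add_zero]
  have e3 := card_filter_add_card_filter_not (s := ann L) (fun w => u ⬝ᵥ w = 0)
  rw [e1, ← e3]
  have e4 : ((ann L).filter (fun w => ¬ u ⬝ᵥ w = 0)).card =
      ((ann L).filter (fun w => u ⬝ᵥ w = 0)).card := e2
  rw [two_mul]
  congr 1

lemma same {L : Finset (Vec r)} {u : Vec r} (hu : u ∈ perp L) : ann (insert u L) = ann L := by
  ext w
  rw [mem_ann, mem_ann]
  constructor
  · intro h v hv
    exact h v (mem_insert_of_mem hv)
  · intro h v hv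
    rcases mem_insert.1 hv with rfl | hv
    · exact mem_perp.1 hu w (mem_ann.2 h)
    · exact h v hv

/-- sign -/
def sg (x : ZMod 2) : ℤ := if x = 0 then 1 else -1

lemma sg_add_one (x : ZMod 2) : sg (x + 1) = - sg x := by
  revert x; decide

/-- the double orthogonal space has the right size -/
lemma card_perp_mul (L : Finset (Vec r)) : (perp L).card * (ann L).card = 2 ^ r := by
  have h1 : ∀ u : Vec r, ∑ a ∈ ann L, sg (u ⬝ᵥ a) = if u ∈ perp L then ((ann L).card : ℤ) else 0 := by
    intro u
    split_ifs with h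
    · rw [mem_perp] at h
      rw [sum_congr rfl (fun a ha => by rw [h a ha]; rfl : ∀ a ∈ ann L, sg (u ⬝ᵥ a) = 1)]
      simp
    · rw [mem_perp] at h
      push Not at h
      obtain ⟨a0, ha0, hne⟩ := h
      have h1 : u ⬝ᵥ a0 = 1 := ne_zero_eq_one hne
      have h2 : ∑ a ∈ ann L, sg (u ⬝ᵥ a) = ∑ a ∈ ann L, sg (u ⬝ᵥ (a + a0)) := by
        refine sum_bij' (fun w _ => w + a0) (fun w _ => w + a0) (fun w hw => add_mem_ann hw ha0)
          (fun w hw => add_mem_ann hw ha0) ?_ ?_ ?_
        · intro w _
          rw [add_assoc, add_self_vec, add_zero]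
        · intro w _
          rw [add_assoc, add_self_vec, add_zero]
        · intro w _
          rw [add_assoc, add_self_vec, add_zero]
      have h3 : ∑ a ∈ ann L, sg (u ⬝ᵥ (a + a0)) = - ∑ a ∈ ann L, sg (u ⬝ᵥ a) := by
        rw [← sum_neg_distrib]
        refine sum_congr rfl fun a _ => ?_
        rw [dotProduct_add, h1, sg_add_one]
      rw [h3] at h2
      linarith
  have h2 : ∀ a : Vec r, ∑ u : Vec r, sg (u ⬝ᵥ a) = if a = 0 then (2 ^ r : ℤ) else 0 := by
    intro a
    split_ifs with h
    · rw [h]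
      rw [sum_congr rfl (fun u _ => by rw [dotProduct_zero]; rfl : ∀ u ∈ (univ : Finset (Vec r)),
        sg (u ⬝ᵥ (0 : Vec r)) = 1)]
      simp [Vec]
    · obtain ⟨i, hi⟩ : ∃ i, a i ≠ 0 := by
        by_contra hcon
        push Not at hcon
        exact h (funext hcon)
      have h1 : (Pi.single i (1 : ZMod 2) : Vec r) ⬝ᵥ a = 1 := by
        rw [single_dotProduct, one_mul]
        exact ne_zero_eq_one hi
      set u0 : Vec r := Pi.single i (1 : ZMod 2) with hu0
      have h2 : ∑ u : Vec r, sg (u ⬝ᵥ a) = ∑ u : Vec r, sg ((u + u0) ⬝ᵥ a) := by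
        refine sum_bij' (fun w _ => w + u0) (fun w _ => w + u0) (fun w _ => mem_univ _)
          (fun w _ => mem_univ _) ?_ ?_ ?_
        · intro w _
          rw [add_assoc, add_self_vec, add_zero]
        · intro w _
          rw [add_assoc, add_self_vec, add_zero]
        · intro w _
          rw [add_assoc, add_self_vec, add_zero]
      have h3 : ∑ u : Vec r, sg ((u + u0) ⬝ᵥ a) = - ∑ u : Vec r, sg (u ⬝ᵥ a) := by
        rw [← sum_neg_distrib]
        refine sum_congr rfl fun u _ => ?_
        rw [add_dotProduct, h1, sg_add_one]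
      rw [h3] at h2
      linarith
  have h3 : ∑ u : Vec r, ∑ a ∈ ann L, sg (u ⬝ᵥ a) = ((perp L).card : ℤ) * (ann L).card := by
    rw [sum_congr rfl fun u _ => h1 u, ← sum_filter, sum_const, nsmul_eq_mul]
    congr 2
    congr 1
    ext u
    simp
  have h4 : ∑ u : Vec r, ∑ a ∈ ann L, sg (u ⬝ᵥ a) = 2 ^ r := by
    rw [sum_comm, sum_congr rfl fun a _ => h2 a, sum_ite_eq', if_pos (zero_mem_ann L)]
  rw [h3] at h4
  exact_mod_cast h4

/-- sequences of pairs all whose products are `c` -/
def Bad (c : ZMod 2) (L : Finset (Vec r)) (m : ℕ) (g : Fin m → Vec r × Vec r) : Prop :=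
  (∀ j, ∀ u ∈ L, u ⬝ᵥ (g j).2 = c) ∧ ∀ i j, i < j → (g i).1 ⬝ᵥ (g j).2 = c

instance (c : ZMod 2) (L : Finset (Vec r)) (m : ℕ) : DecidablePred (Bad c L m) := fun _ => by
  unfold Bad; infer_instance

/-- their number -/
def cnt (c : ZMod 2) (L : Finset (Vec r)) (m : ℕ) : ℕ :=
  (univ.filter (fun g : Fin m → Vec r × Vec r => Bad c L m g)).card

lemma cnt_zero (c : ZMod 2) (L : Finset (Vec r)) : cnt c L 0 ≤ 1 := by
  unfold cnt
  refine (card_filter_le _ _).trans ?_
  rw [card_univ]
  simp

lemma cnt_succ (c : ZMod 2) (L : Finset (Vec r)) (m : ℕ) :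
    cnt c L (m + 1) ≤ (ann L).card * ∑ u : Vec r, cnt c (insert u L) m := by
  unfold cnt
  rw [card_eq_sum_card_fiberwise (f := fun g : Fin (m + 1) → Vec r × Vec r => (g 0).1)
    (t := (univ : Finset (Vec r))) (fun _ _ => mem_univ _), mul_sum]
  refine sum_le_sum fun u _ => ?_
  refine le_trans ?_ (Nat.mul_le_mul_right _ (card_sol_le c L))
  rw [← card_product]
  refine card_le_card_of_injOn (fun g => ((g 0).2, Fin.tail g)) ?_ ?_
  · intro g hg
    rw [mem_coe, mem_filter, mem_filter] at hg
    obtain ⟨⟨-, h1, h2⟩, h3⟩ := hg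
    show ((g 0).2, Fin.tail g) ∈ sol c L ×ˢ univ.filter (fun g => Bad c (insert u L) m g)
    rw [mem_product, mem_sol, mem_filter]
    refine ⟨fun v hv => h1 0 v hv, mem_univ _, ?_, ?_⟩
    · intro j v hv
      rcases mem_insert.1 hv with rfl | hv
      · rw [← h3]
        exact h2 0 j.succ (Fin.succ_pos j)
      · exact h1 j.succ v hv
    · intro i j hij
      exact h2 i.succ j.succ (Fin.succ_lt_succ_iff.2 hij)
  · intro g hg g' hg' he
    rw [mem_coe, mem_filter] at hg hg'
    simp only [Prod.mk.injEq] at he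
    have h0 : g 0 = g' 0 := Prod.ext (hg.2.trans hg'.2.symm) he.1
    rw [← Fin.cons_self_tail g, ← Fin.cons_self_tail g', h0, he.2]

/-- triangular numbers -/
def tri : ℕ → ℕ
  | 0 => 0
  | (e + 1) => tri e + (e + 1)

/-- **The number of bad sequences.** -/
theorem cnt_le (c : ZMod 2) : ∀ (m : ℕ) (L : Finset (Vec r)) (e : ℕ), (ann L).card = 2 ^ e →
    cnt c L m ≤ 2 ^ (m + r * m + tri e) := by
  intro m
  induction m with
  | zero =>
    intro L e _
    exact (cnt_zero c L).trans Nat.one_le_two_pow
  | succ m ih =>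
    intro L e he
    refine (cnt_succ c L m).trans ?_
    have hp := card_perp_mul L
    rw [he] at hp ⊢
    have hsame : ∀ u ∈ perp L, cnt c (insert u L) m ≤ 2 ^ (m + r * m + tri e) := by
      intro u hu
      exact ih _ e (by rw [same hu, he])
    have hsplit := sum_filter_add_sum_filter_not (univ : Finset (Vec r)) (fun u => u ∈ perp L)
      (fun u => cnt c (insert u L) m)
    have h1 : ∑ u ∈ univ.filter (fun u => u ∈ perp L), cnt c (insert u L) m ≤
        (perp L).card * 2 ^ (m + r * m + tri e) := by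
      have e1 : univ.filter (fun u => u ∈ perp L) = perp L := by ext u; simp
      rw [e1, ← smul_eq_mul, ← sum_const]
      exact sum_le_sum hsame
    rcases e with _ | e
    · have h2 : ∑ u ∈ univ.filter (fun u => ¬ u ∈ perp L), cnt c (insert u L) m = 0 := by
        have : univ.filter (fun u => ¬ u ∈ perp L) = ∅ := by
          refine filter_eq_empty_iff.2 fun u _ => ?_
          rw [not_not]
          by_contra hcon
          have := halve hcon
          rw [he] at this
          omega
        rw [this, sum_empty]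
      rw [← hsplit, h2, add_zero]
      rw [pow_zero, mul_one] at hp
      rw [hp] at h1
      calc 2 ^ 0 * ∑ u ∈ univ.filter (fun u => u ∈ perp L), cnt c (insert u L) m
          ≤ 2 ^ 0 * (2 ^ r * 2 ^ (m + r * m + tri 0)) := Nat.mul_le_mul_left _ h1
        _ = 2 ^ (m + (r * (m + 1)) + tri 0) := by
            rw [pow_zero, one_mul, ← pow_add]; congr 1; ring
        _ ≤ _ := Nat.pow_le_pow_right (by norm_num) (by omega)
    · have h2 : ∑ u ∈ univ.filter (fun u => ¬ u ∈ perp L), cnt c (insert u L) m ≤
          2 ^ r * 2 ^ (m + r * m + tri e) := by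
        have h3 : ∀ u ∈ univ.filter (fun u => ¬ u ∈ perp L),
            cnt c (insert u L) m ≤ 2 ^ (m + r * m + tri e) := by
          intro u hu
          rw [mem_filter] at hu
          refine ih _ e ?_
          have h4 := halve hu.2
          rw [he, pow_succ] at h4
          omega
        refine (sum_le_sum h3).trans ?_
        rw [sum_const, smul_eq_mul]
        refine Nat.mul_le_mul_right _ ?_
        refine (card_filter_le _ _).trans ?_
        rw [card_univ]
        simp [Vec]
      rw [← hsplit]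
      calc 2 ^ (e + 1) * (∑ u ∈ univ.filter (fun u => u ∈ perp L), cnt c (insert u L) m +
            ∑ u ∈ univ.filter (fun u => ¬ u ∈ perp L), cnt c (insert u L) m)
          ≤ 2 ^ (e + 1) * ((perp L).card * 2 ^ (m + r * m + tri (e + 1)) +
            2 ^ r * 2 ^ (m + r * m + tri e)) := Nat.mul_le_mul_left _ (add_le_add h1 h2)
        _ = ((perp L).card * 2 ^ (e + 1)) * 2 ^ (m + r * m + tri (e + 1)) +
            2 ^ (r + (m + r * m) + (tri e + (e + 1))) := by
            rw [mul_add]
            congr 1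
            · ring
            · rw [← pow_add, ← pow_add]; congr 1; ring
        _ = 2 ^ (m + 1 + r * (m + 1) + tri (e + 1)) := by
            rw [hp]
            show 2 ^ r * 2 ^ (m + r * m + (tri e + (e + 1))) + _ =
              2 ^ (m + 1 + r * (m + 1) + (tri e + (e + 1)))
            rw [← pow_add]
            have e2 : m + 1 + r * (m + 1) + (tri e + (e + 1)) =
              (r + (m + r * m) + (tri e + (e + 1))) + 1 := by ring
            rw [e2, pow_succ]
            have e3 : r + (m + r * m + (tri e + (e + 1))) = r + (m + r * m) + (tri e + (e + 1)) := by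
              ring
            rw [e3]
            ring

lemma cnt_empty (c : ZMod 2) (m : ℕ) : cnt c (∅ : Finset (Vec r)) m ≤ 2 ^ (m + r * m + tri r) := by
  refine cnt_le c m ∅ r ?_
  unfold ann
  simp [Vec]

lemma two_tri (r : ℕ) : 2 * tri r = r * (r + 1) := by
  induction r with
  | zero => rfl
  | succ r ih =>
    show 2 * (tri r + (r + 1)) = _
    rw [mul_add, ih]; ring

end Pool.Agent.T2H11.RW
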