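import Pool.Agent.T2H11.RW.Rec

set_option autoImplicit false

/-!
# Rank-width
-/

open Finset Pool.Agent.T2H11.TW

namespace Pool.Agent.T2H11.RW

variable {V : Type} [Fintype V] [DecidableEq V]

open Classical in
/-- the rank over `F_2` of the adjacency matrix between `A` and its complement -/
noncomputable def cutRank (G : SimpleGraph V) (A : Finset V) : ℕ :=
  (Matrix.of (fun (a : A) (b : (Aᶜ : Finset V)) => if G.Adj a b then (1 : ZMod 2) else 0)).rank

/-- the set `A` has a rank decomposition of width at most `r` -/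
inductive Dec (G : SimpleGraph V) (r : ℕ) : Finset V → Prop
  | leaf (v : V) (h : cutRank G {v} ≤ r) : Dec G r {v}
  | node (A B : Finset V) (hA : Dec G r A) (hB : Dec G r B) (hd : Disjoint A B)
      (h : cutRank G (A ∪ B) ≤ r) : Dec G r (A ∪ B)

/-- few classes -/
lemma classes {G : SimpleGraph V} {A : Finset V} {r : ℕ} (h : cutRank G A ≤ r) {S : Finset V} {M : ℕ}
    (hS : 2 ^ r * M ≤ (A ∩ S).card) : ∃ C ⊆ A ∩ S, M ≤ C.card ∧
      ∀ v ∈ S, v ∉ A → (∀ c ∈ C, G.Adj c v) ∨ (∀ c ∈ C, ¬ G.Adj c v) := by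
  classical
  set N := Matrix.of (fun (a : A) (b : (Aᶜ : Finset V)) => if G.Adj a b then (1 : ZMod 2) else 0)
    with hN
  -- the row of a vertex
  let row : V → ((Aᶜ : Finset V) → ZMod 2) := fun a b => if G.Adj a b then 1 else 0
  set W : Submodule (ZMod 2) ((Aᶜ : Finset V) → ZMod 2) := Submodule.span (ZMod 2) (Set.range N.row)
    with hW
  have hfin : Module.finrank (ZMod 2) W ≤ r := by
    rw [hW, ← Matrix.rank_eq_finrank_span_row]
    exact h
  have hcard : Fintype.card W ≤ 2 ^ r := by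
    rw [Module.card_eq_pow_finrank (K := ZMod 2) (V := W), ZMod.card]
    exact Nat.pow_le_pow_right (by norm_num) hfin
  set T : Finset ((Aᶜ : Finset V) → ZMod 2) := univ.filter (fun w => w ∈ W) with hT
  have hTc : T.card ≤ 2 ^ r := by
    rw [hT, ← Fintype.card_subtype]
    exact hcard
  have hmaps : ∀ a ∈ A ∩ S, row a ∈ T := by
    intro a ha
    rw [mem_inter] at ha
    rw [hT, mem_filter]
    have h1 : N.row ⟨a, ha.1⟩ ∈ W := Submodule.subset_span ⟨_, rfl⟩
    exact ⟨mem_univ _, h1⟩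
  have hTne : T.Nonempty := ⟨0, by rw [hT, mem_filter]; exact ⟨mem_univ _, W.zero_mem⟩⟩
  obtain ⟨y, hy, hcy⟩ := exists_le_card_fiber_of_mul_le_card_of_maps_to hmaps hTne
    (n := M) ((Nat.mul_le_mul_right M hTc).trans hS)
  refine ⟨(A ∩ S).filter (fun a => row a = y), filter_subset _ _, hcy, ?_⟩
  intro v _ hvA
  have hv : v ∈ Aᶜ := mem_compl.2 hvA
  by_cases hyv : y ⟨v, hv⟩ = 1
  · left
    intro c hc
    rw [mem_filter] at hc
    have h1 : row c ⟨v, hv⟩ = 1 := by rw [hc.2, hyv]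
    by_contra hcon
    have h2 : row c ⟨v, hv⟩ = 0 := if_neg hcon
    rw [h2] at h1
    exact zero_ne_one h1
  · right
    intro c hc hadj
    rw [mem_filter] at hc
    have h1 : row c ⟨v, hv⟩ = 1 := if_pos hadj
    rw [hc.2] at h1
    exact hyv h1

/-- a part of the decomposition with about `L` vertices in `S` -/
lemma Dec.part {G : SimpleGraph V} {r L : ℕ} (hL : 1 ≤ L) {S : Finset V} {A : Finset V}
    (h : Dec G r A) : L ≤ (A ∩ S).card → ∃ B : Finset V, cutRank G B ≤ r ∧ L ≤ (B ∩ S).card ∧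
      (B ∩ S).card ≤ 2 * L := by
  induction h with
  | leaf v hv =>
    intro h1
    refine ⟨{v}, hv, h1, ?_⟩
    have : (({v} : Finset V) ∩ S).card ≤ 1 := by
      refine (card_le_card inter_subset_left).trans ?_
      rw [card_singleton]
    omega
  | node A B _ _ _ hr ihA ihB =>
    intro h1
    by_cases hA : L ≤ (A ∩ S).card
    · exact ihA hA
    by_cases hB : L ≤ (B ∩ S).card
    · exact ihB hB
    refine ⟨A ∪ B, hr, h1, ?_⟩
    have h2 : ((A ∪ B) ∩ S).card ≤ (A ∩ S).card + (B ∩ S).card := by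
      rw [union_inter_distrib_right]
      exact card_union_le _ _
    omega

/-- graphs of small rank-width have large homogeneous parts -/
theorem struct_of_dec {G : SimpleGraph V} {r : ℕ} (h : Dec G r univ) (p : ℕ) :
    Struct G (4 ^ p) (2 ^ (r + 1) * 4 ^ p) := by
  intro S hS
  have h1 : 1 ≤ 2 ^ r * 4 ^ p := Nat.one_le_iff_ne_zero.2 (by positivity)
  have h2 : 2 ^ (r + 1) * 4 ^ p = 2 * (2 ^ r * 4 ^ p) := by ring
  obtain ⟨B, hB, hB1, hB2⟩ := h.part (L := 2 ^ r * 4 ^ p) h1 (S := S) (by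
    rw [univ_inter]
    omega)
  obtain ⟨C, hCB, hCM, hC⟩ := classes hB hB1
  refine ⟨C, hCB.trans inter_subset_right, hCM, B ∩ S, inter_subset_right, hCB, by omega, ?_⟩
  intro v hv hvZ
  exact hC v hv (fun hvB => hvZ (mem_inter.2 ⟨hvB, hv⟩))

/-- **Upper bound.** -/
theorem upper {G : SimpleGraph V} {r k : ℕ} (hk : 2 ≤ k) (h : Dec G r univ)
    (hr : G.CliqueFree k) (hb : Gᶜ.CliqueFree k) :
    Real.log (Fintype.card V) ≤ (r + 1) * Real.log 2 + 8 * Real.sqrt (k * Real.log k) := by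
  have h1 := log_upper hk (Nat.one_le_two_pow (n := r + 1)) (struct_of_dec h) hr hb
  have h2 : Real.log ((2 ^ (r + 1) : ℕ) : ℝ) = (r + 1) * Real.log 2 := by
    push_cast
    rw [Real.log_pow]
    push_cast
    ring
  rw [h2] at h1
  exact h1

end Pool.Agent.T2H11.RW
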