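import Pool.Agent.T2H11.RW.Low

set_option autoImplicit false

/-!
# Ramsey numbers of colourings of small rank-width
-/

open Finset Filter Topology

namespace Pool.Agent.T2H11.RW

/-- the Ramsey number of a class of colourings -/
noncomputable def cR (C : ∀ n : ℕ, SimpleGraph (Fin n) → Prop) (k : ℕ) : ℕ :=
  sInf {N : ℕ | ∀ n : ℕ, N ≤ n → ∀ G : SimpleGraph (Fin n), C n G →
    ¬ (G.CliqueFree k ∧ Gᶜ.CliqueFree k)}

/-- linear rank-width -/
def Lin {n : ℕ} (G : SimpleGraph (Fin n)) (r : ℕ) : Prop :=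
  ∃ σ : Equiv.Perm (Fin n), ∀ t : ℕ, cutRank G (univ.filter (fun v => (σ v).val ≤ t)) ≤ r

lemma lin_gr {n r : ℕ} (f : Fin n → Vec r × Vec r) : Lin (gr f) r :=
  ⟨1, fun t => cutRank_init f t⟩

lemma Lin.dec {n r : ℕ} {G : SimpleGraph (Fin n)} (hr : 1 ≤ r) (hn : 1 ≤ n) (h : Lin G r) :
    Dec G r univ := by
  obtain ⟨σ, hσ⟩ := h
  have key : ∀ t : ℕ, t < n → Dec G r (univ.filter (fun v : Fin n => (σ v).val ≤ t)) := by
    intro t
    induction t with
    | zero =>
      intro h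
      have : univ.filter (fun v : Fin n => (σ v).val ≤ 0) = {σ.symm ⟨0, h⟩} := by
        ext v
        rw [mem_filter, mem_singleton, Equiv.eq_symm_apply, Fin.ext_iff]
        simp
      rw [this]
      exact Dec.leaf _ ((cutRank_single _ _).trans hr)
    | succ t ih =>
      intro h
      have : univ.filter (fun v : Fin n => (σ v).val ≤ t + 1) =
          univ.filter (fun v : Fin n => (σ v).val ≤ t) ∪ {σ.symm ⟨t + 1, h⟩} := by
        ext v
        rw [mem_union, mem_filter, mem_filter, mem_singleton, Equiv.eq_symm_apply, Fin.ext_iff]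
        simp only [mem_univ, true_and]
        omega
      have hc := hσ (t + 1)
      rw [this] at hc ⊢
      refine Dec.node _ _ (ih (by omega)) (Dec.leaf _ ((cutRank_single _ _).trans hr)) ?_ hc
      rw [disjoint_singleton_right, mem_filter]
      rintro ⟨-, h1⟩
      rw [Equiv.apply_symm_apply] at h1
      simp at h1
  have h := key (n - 1) (by omega)
  have : univ.filter (fun v : Fin n => (σ v).val ≤ n - 1) = univ := by
    ext v
    rw [mem_filter]
    have := (σ v).2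
    simp only [mem_univ, true_and, iff_true]
    omega
  rwa [this] at h

theorem exists_good' {n k r : ℕ} (h : n ^ k * 2 ^ (1 + k + tri r) < 2 ^ (r * k)) :
    ∃ f : Fin n → Vec r × Vec r, (gr f).CliqueFree k ∧ (gr f)ᶜ.CliqueFree k := by
  rcases le_or_gt k n with hk | hk
  · exact exists_good hk h
  · refine ⟨fun _ => 0, ?_, ?_⟩
    · exact SimpleGraph.cliqueFree_of_card_lt (by rw [Fintype.card_fin]; exact hk)
    · exact SimpleGraph.cliqueFree_of_card_lt (by rw [Fintype.card_fin]; exact hk)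

/-- lower bound for the number of vertices -/
theorem exists_large {k r : ℕ} (hk : 2 ≤ k) (hr : 1 ≤ r) :
    ∃ (n : ℕ) (f : Fin n → Vec r × Vec r), 1 ≤ n ∧ (gr f).CliqueFree k ∧ (gr f)ᶜ.CliqueFree k ∧
      ((r : ℝ) - r * (r + 1) / (2 * k) - 3) * Real.log 2 ≤ Real.log n := by
  have hkR : (2:ℝ) ≤ k := by exact_mod_cast hk
  have hk0 : (0:ℝ) < k := by linarith
  set y : ℝ := (r : ℝ) - r * (r + 1) / (2 * k) - 2 with hy
  have hlog2 : 0 < Real.log 2 := Real.log_pos (by norm_num)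
  rcases lt_or_ge y 0 with hneg | hpos
  · refine ⟨1, fun _ => (0 : Vec r × Vec r), le_rfl, ?_, ?_, ?_⟩
    · exact SimpleGraph.cliqueFree_of_card_lt (by rw [Fintype.card_fin]; omega)
    · exact SimpleGraph.cliqueFree_of_card_lt (by rw [Fintype.card_fin]; omega)
    · rw [Nat.cast_one, Real.log_one]
      nlinarith
  · set n : ℕ := ⌊(2:ℝ) ^ y⌋₊ with hn
    have h2y : (1:ℝ) ≤ (2:ℝ) ^ y := Real.one_le_rpow (by norm_num) hpos
    have hn1 : 1 ≤ n := by
      rw [hn]
      exact Nat.le_floor (by simpa using h2y)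
    have hnR : (1:ℝ) ≤ n := by exact_mod_cast hn1
    have hle : (n : ℝ) ≤ (2:ℝ) ^ y := Nat.floor_le (by positivity)
    have hgt : (2:ℝ) ^ y < n + 1 := Nat.lt_floor_add_one _
    have hineq : n ^ k * 2 ^ (1 + k + tri r) < 2 ^ (r * k) := by
      have h1 : (n : ℝ) ^ k ≤ (2:ℝ) ^ (y * k) := by
        refine (pow_le_pow_left₀ (by linarith) hle k).trans (le_of_eq ?_)
        rw [← Real.rpow_natCast, ← Real.rpow_mul (by norm_num)]
      have h2 : ((tri r : ℕ) : ℝ) = r * (r + 1) / 2 := by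
        have := two_tri r
        have h3 : (2:ℝ) * (tri r : ℕ) = r * (r + 1) := by exact_mod_cast this
        linarith
      have h3 : (2:ℝ) ^ (y * k) * (2:ℝ) ^ ((1 + k + tri r : ℕ) : ℝ) < (2:ℝ) ^ ((r * k : ℕ) : ℝ) := by
        rw [← Real.rpow_add (by norm_num)]
        apply Real.rpow_lt_rpow_of_exponent_lt (by norm_num)
        push_cast
        rw [h2, hy]
        have e : ((r : ℝ) - r * (r + 1) / (2 * k) - 2) * k = r * k - r * (r + 1) / 2 - 2 * k := by
          field_simp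
        rw [e]
        linarith
      have h4 : ((n ^ k * 2 ^ (1 + k + tri r) : ℕ) : ℝ) < ((2 ^ (r * k) : ℕ) : ℝ) := by
        push_cast
        rw [Real.rpow_natCast, Real.rpow_natCast] at h3
        refine lt_of_le_of_lt (mul_le_mul_of_nonneg_right h1 (by positivity)) h3
      exact_mod_cast h4
    obtain ⟨f, h1, h2⟩ := exists_good' (r := r) hineq
    refine ⟨n, f, hn1, h1, h2, ?_⟩
    have h3 : (2:ℝ) ^ (y - 1) ≤ n := by
      rw [Real.rpow_sub (by norm_num), Real.rpow_one]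
      linarith
    have h4 := Real.log_le_log (by positivity) h3
    rw [Real.log_rpow (by norm_num)] at h4
    have e : (r : ℝ) - r * (r + 1) / (2 * k) - 3 = y - 1 := by rw [hy]; ring
    rw [e]
    exact h4

/-- no colourings beyond the upper bound -/
lemma mem_of_large {C : ∀ n : ℕ, SimpleGraph (Fin n) → Prop} {r k N : ℕ} (hk : 2 ≤ k)
    (hup : ∀ n : ℕ, 1 ≤ n → ∀ G : SimpleGraph (Fin n), C n G → Dec G r univ)
    (hN : Real.exp ((r + 1) * Real.log 2 + 8 * Real.sqrt (k * Real.log k)) < N) :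
    N ∈ {N : ℕ | ∀ n : ℕ, N ≤ n → ∀ G : SimpleGraph (Fin n), C n G →
    ¬ (G.CliqueFree k ∧ Gᶜ.CliqueFree k)} := by
  intro n hn G hG hfree
  have hn0 : (0:ℝ) < n := (Real.exp_pos _).trans (hN.trans_le (by exact_mod_cast hn))
  have hn1 : 1 ≤ n := by
    have : 0 < n := by exact_mod_cast hn0
    omega
  have h1 := upper hk (hup n hn1 G hG) hfree.1 hfree.2
  rw [Fintype.card_fin] at h1
  have h2 : (N : ℝ) ≤ n := by exact_mod_cast hn
  have h3 := Real.exp_le_exp.2 h1
  rw [Real.exp_log hn0] at h3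
  linarith

/-- **Two-sided bound.** -/
theorem cR_bounds {C : ∀ n : ℕ, SimpleGraph (Fin n) → Prop} {r k : ℕ} (hk : 2 ≤ k) (hr : 1 ≤ r)
    (hup : ∀ n : ℕ, 1 ≤ n → ∀ G : SimpleGraph (Fin n), C n G → Dec G r univ)
    (hlow : ∀ (n : ℕ), 1 ≤ n → ∀ (f : Fin n → Vec r × Vec r), C n (gr f)) :
    ((r : ℝ) - r * (r + 1) / (2 * k) - 3) * Real.log 2 ≤ Real.log (cR C k) ∧
    Real.log (cR C k) ≤ (r + 2) * Real.log 2 + 8 * Real.sqrt (k * Real.log k) := by
  set B : ℝ := (r + 1) * Real.log 2 + 8 * Real.sqrt (k * Real.log k) with hB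
  have hmem := mem_of_large (r := r) (k := k) (N := ⌊Real.exp B⌋₊ + 1) hk hup (by
    push_cast
    exact Nat.lt_floor_add_one _)
  have hin := Nat.sInf_mem ⟨_, hmem⟩
  have hle : cR C k ≤ ⌊Real.exp B⌋₊ + 1 := Nat.sInf_le hmem
  obtain ⟨n, f, hn1, h1, h2, h3⟩ := exists_large hk hr
  have hlt : n < cR C k := by
    by_contra hcon
    push Not at hcon
    exact hin n hcon (gr f) (hlow n hn1 f) ⟨h1, h2⟩
  have hnR : (1:ℝ) ≤ n := by exact_mod_cast hn1
  have hltR : (n : ℝ) ≤ cR C k := by exact_mod_cast hlt.le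
  constructor
  · exact h3.trans (Real.log_le_log (by linarith) hltR)
  · have hlog2 : 0 < Real.log 2 := Real.log_pos (by norm_num)
    have hB0 : 0 ≤ B := by positivity
    have h4 : (cR C k : ℝ) ≤ 2 * Real.exp B := by
      have h5 : (cR C k : ℝ) ≤ ⌊Real.exp B⌋₊ + 1 := by exact_mod_cast hle
      have h6 : (⌊Real.exp B⌋₊ : ℝ) ≤ Real.exp B := Nat.floor_le (Real.exp_pos _).le
      have h7 : 1 ≤ Real.exp B := Real.one_le_exp hB0
      linarith
    have h5 := Real.log_le_log (by linarith) h4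
    rw [Real.log_mul (by norm_num) (Real.exp_pos _).ne', Real.log_exp, hB] at h5
    linarith

/-- the bounds as a property of a function of `r` and `k` -/
def Bds (F : ℕ → ℕ → ℕ) : Prop := ∀ r k : ℕ, 2 ≤ k → 1 ≤ r →
    ((r : ℝ) - r * (r + 1) / (2 * k) - 3) * Real.log 2 ≤ Real.log (F r k) ∧
    Real.log (F r k) ≤ (r + 2) * Real.log 2 + 8 * Real.sqrt (k * Real.log k)

/-- `√(k log k) / k → 0` -/
lemma sqrt_small : Tendsto (fun k : ℕ => Real.sqrt (k * Real.log k) / k) atTop (𝓝 0) := by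
  have h1 : Tendsto (fun x : ℝ => Real.log x / x) atTop (𝓝 0) := by
    have := Real.isLittleO_log_id_atTop.tendsto_div_nhds_zero
    simpa using this
  have h2 : Tendsto (fun k : ℕ => Real.sqrt (Real.log k / k)) atTop (𝓝 0) := by
    have := (Real.continuous_sqrt.tendsto 0).comp (h1.comp tendsto_natCast_atTop_atTop)
    rw [Real.sqrt_zero] at this
    exact this
  refine h2.congr' ?_
  filter_upwards [eventually_gt_atTop 0] with k hk
  have hk0 : (0:ℝ) < k := by exact_mod_cast hk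
  have e : (k:ℝ) * Real.log k = (Real.log k / k) * (k:ℝ) ^ 2 := by
    field_simp
  rw [e, Real.sqrt_mul' _ (by positivity), Real.sqrt_sq hk0.le]
  field_simp

lemma tendsto_sqrt : Tendsto (fun k : ℕ => Real.sqrt (k * Real.log k)) atTop atTop := by
  have h4 : Tendsto (fun k : ℕ => (k : ℝ) * Real.log k) atTop atTop :=
    (tendsto_natCast_atTop_atTop).atTop_mul_atTop₀
      (Real.tendsto_log_atTop.comp tendsto_natCast_atTop_atTop)
  exact Real.tendsto_sqrt_atTop.comp h4

/-- **Exact asymptotics** for `√(k log k) ≪ r ≪ k`. -/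
theorem exact_asymptotics {F : ℕ → ℕ → ℕ} (hF : Bds F) (r : ℕ → ℕ)
    (h1 : (fun k : ℕ => (r k : ℝ)) =o[atTop] (fun k : ℕ => (k : ℝ)))
    (h2 : (fun k : ℕ => Real.sqrt (k * Real.log k)) =o[atTop] (fun k : ℕ => (r k : ℝ))) :
    Tendsto (fun k : ℕ => Real.log (F (r k) k) / (r k * Real.log 2)) atTop (𝓝 1) := by
  have hlog2 : 0 < Real.log 2 := Real.log_pos (by norm_num)
  have g1 := h1.tendsto_div_nhds_zero
  have g2 := h2.tendsto_div_nhds_zero
  have hs1 : ∀ᶠ k : ℕ in atTop, 1 ≤ Real.sqrt (k * Real.log k) :=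
    tendsto_sqrt.eventually_ge_atTop 1
  have hr1 : ∀ᶠ k : ℕ in atTop, 1 ≤ r k := by
    filter_upwards [h2.bound (c := 1) one_pos, hs1] with k hk hk2
    rw [one_mul, Real.norm_eq_abs, Real.norm_eq_abs, abs_of_nonneg (Real.sqrt_nonneg _),
      abs_of_nonneg (Nat.cast_nonneg _)] at hk
    have : (1:ℝ) ≤ r k := hk2.trans hk
    exact_mod_cast this
  have g3 : Tendsto (fun k : ℕ => 1 / (r k : ℝ)) atTop (𝓝 0) := by
    refine squeeze_zero' (Eventually.of_forall fun k => by positivity) ?_ g2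
    filter_upwards [hs1] with k hk
    exact div_le_div_of_nonneg_right hk (Nat.cast_nonneg _)
  have g4 : Tendsto (fun k : ℕ => 1 / (k : ℝ)) atTop (𝓝 0) := tendsto_one_div_atTop_nhds_zero_nat
  have glow : Tendsto (fun k : ℕ => 1 - ((r k : ℝ) / k + 1 / k) / 2 - 3 * (1 / (r k : ℝ))) atTop
      (𝓝 1) := by
    have := ((tendsto_const_nhds (x := (1:ℝ))).sub ((g1.add g4).div_const 2)).sub (g3.const_mul 3)
    simpa using this
  have gup : Tendsto (fun k : ℕ => 1 + 2 * (1 / (r k : ℝ)) +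
      8 / Real.log 2 * (Real.sqrt (k * Real.log k) / r k)) atTop (𝓝 1) := by
    have := ((tendsto_const_nhds (x := (1:ℝ))).add (g3.const_mul 2)).add
      (g2.const_mul (8 / Real.log 2))
    simpa using this
  refine tendsto_of_tendsto_of_tendsto_of_le_of_le' glow gup ?_ ?_
  · filter_upwards [hr1, eventually_ge_atTop 2] with k hk hk2
    have hk0 : (0:ℝ) < k := by
      have : (2:ℝ) ≤ k := by exact_mod_cast hk2
      linarith
    have hr0 : (0:ℝ) < r k := by
      have : (1:ℝ) ≤ r k := by exact_mod_cast hk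
      linarith
    rw [le_div_iff₀ (by positivity)]
    refine le_trans (le_of_eq ?_) (hF (r k) k hk2 hk).1
    field_simp
  · filter_upwards [hr1, eventually_ge_atTop 2] with k hk hk2
    have hr0 : (0:ℝ) < r k := by
      have : (1:ℝ) ≤ r k := by exact_mod_cast hk
      linarith
    rw [div_le_iff₀ (by positivity)]
    refine (hF (r k) k hk2 hk).2.trans (le_of_eq ?_)
    field_simp

/-- **The linear regime.** -/
theorem linear_regime {F : ℕ → ℕ → ℕ} (hF : Bds F) {ε η : ℝ} (hε : 0 < ε) (hη : 0 < η) :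
    ∃ K : ℕ, ∀ k : ℕ, K ≤ k →
      (ε - ε ^ 2 / 2) * Real.log 2 - η ≤ Real.log (F ⌊ε * k⌋₊ k) / k ∧
      Real.log (F ⌊ε * k⌋₊ k) / k ≤ ε * Real.log 2 + η := by
  have hlog2 : 0 < Real.log 2 := Real.log_pos (by norm_num)
  have g4 : Tendsto (fun k : ℕ => 1 / (k : ℝ)) atTop (𝓝 0) := tendsto_one_div_atTop_nhds_zero_nat
  have e1 : ∀ᶠ k : ℕ in atTop, (5 + ε) * Real.log 2 * (1 / (k : ℝ)) < η := by
    have := g4.const_mul ((5 + ε) * Real.log 2)
    rw [mul_zero] at this
    exact (tendsto_order.1 this).2 _ hη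
  have e2 : ∀ᶠ k : ℕ in atTop, 2 * Real.log 2 * (1 / (k : ℝ)) +
      8 * (Real.sqrt (k * Real.log k) / k) < η := by
    have := (g4.const_mul (2 * Real.log 2)).add (sqrt_small.const_mul 8)
    rw [mul_zero, mul_zero, add_zero] at this
    exact (tendsto_order.1 this).2 _ hη
  obtain ⟨K, hK⟩ := eventually_atTop.1 (e1.and (e2.and (eventually_ge_atTop 2)))
  obtain ⟨K2, hK2⟩ := exists_nat_gt (1 / ε)
  refine ⟨max K K2, fun k hk => ?_⟩
  obtain ⟨a1, a2, a3⟩ := hK k (le_trans (le_max_left _ _) hk)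
  have hkR : (2:ℝ) ≤ k := by exact_mod_cast a3
  have hk0 : (0:ℝ) < k := by linarith
  have hεk : 1 ≤ ε * k := by
    have h1 : 1 / ε < k := hK2.trans_le (by exact_mod_cast (le_trans (le_max_right _ _) hk))
    rw [div_lt_iff₀ hε] at h1
    linarith
  set r : ℕ := ⌊ε * k⌋₊ with hr
  have hr1 : 1 ≤ r := Nat.le_floor (by simpa using hεk)
  have hrle : (r : ℝ) ≤ ε * k := Nat.floor_le (by positivity)
  have hrge : ε * k < r + 1 := Nat.lt_floor_add_one _
  have hr0 : (0:ℝ) ≤ r := Nat.cast_nonneg r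
  obtain ⟨b1, b2⟩ := hF r k a3 hr1
  constructor
  · rw [le_div_iff₀ hk0]
    refine le_trans ?_ b1
    have h1 : (r : ℝ) * (r + 1) / (2 * k) ≤ (ε ^ 2 * k + ε) / 2 := by
      rw [div_le_iff₀ (by positivity)]
      have h2 : (r : ℝ) * (r + 1) ≤ ε * k * (ε * k + 1) :=
        mul_le_mul hrle (by linarith) (by linarith) (by positivity)
      nlinarith
    have h2 : (5 + ε) * Real.log 2 ≤ η * k := by
      have h3 := mul_le_mul_of_nonneg_right a1.le hk0.le
      have e : (5 + ε) * Real.log 2 * (1 / (k : ℝ)) * k = (5 + ε) * Real.log 2 := by field_simp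
      rw [e] at h3
      exact h3
    have h3 : (ε - ε ^ 2 / 2) * k - (5 + ε) ≤ (r : ℝ) - r * (r + 1) / (2 * k) - 3 := by
      nlinarith
    have h4 := mul_le_mul_of_nonneg_right h3 hlog2.le
    nlinarith
  · rw [div_le_iff₀ hk0]
    refine b2.trans ?_
    have h3 := mul_le_mul_of_nonneg_right a2.le hk0.le
    have e : (2 * Real.log 2 * (1 / (k : ℝ)) + 8 * (Real.sqrt (k * Real.log k) / k)) * k =
        2 * Real.log 2 + 8 * Real.sqrt (k * Real.log k) := by field_simp
    rw [e] at h3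
    have h4 := mul_le_mul_of_nonneg_right hrle hlog2.le
    nlinarith

end Pool.Agent.T2H11.RW
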