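import Pool.Agent.T2H11.RW.Count
import Pool.Agent.T2H11.RW.Cut

set_option autoImplicit false

/-!
# Random colourings of small linear rank-width
-/

open Finset

namespace Pool.Agent.T2H11.RW

variable {r n : ℕ}

/-- the graph of an assignment of pairs of vectors -/
def gr (f : Fin n → Vec r × Vec r) : SimpleGraph (Fin n) where
  Adj a b := (a < b ∧ (f a).1 ⬝ᵥ (f b).2 = 1) ∨ (b < a ∧ (f b).1 ⬝ᵥ (f a).2 = 1)
  symm := ⟨fun a b h => h.symm⟩
  loopless := ⟨fun a h => by
    rcases h with h | h
    · exact lt_irrefl _ h.1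
    · exact lt_irrefl _ h.1⟩

lemma gr_adj {f : Fin n → Vec r × Vec r} {a b : Fin n} (h : a < b) :
    (gr f).Adj a b ↔ (f a).1 ⬝ᵥ (f b).2 = 1 := by
  constructor
  · rintro (h1 | h1)
    · exact h1.2
    · exact absurd h1.1 (lt_asymm h)
  · exact fun h1 => Or.inl ⟨h, h1⟩

/-- initial segments have small cut-rank -/
lemma cutRank_init (f : Fin n → Vec r × Vec r) (t : ℕ) :
    cutRank (gr f) (univ.filter (fun v : Fin n => v.val ≤ t)) ≤ r := by
  classical
  unfold cutRank
  set A : Finset (Fin n) := univ.filter (fun v : Fin n => v.val ≤ t) with hA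
  have hmem : ∀ v : Fin n, v ∈ A ↔ v.val ≤ t := by
    intro v
    rw [hA, mem_filter]
    exact ⟨fun h => h.2, fun h => ⟨mem_univ _, h⟩⟩
  have h1 : (Matrix.of (fun (a : A) (b : (Aᶜ : Finset (Fin n))) =>
      if (gr f).Adj a b then (1 : ZMod 2) else 0)) =
      (Matrix.of (fun (a : A) (i : Fin r) => (f a).1 i)) *
      (Matrix.of (fun (i : Fin r) (b : (Aᶜ : Finset (Fin n))) => (f b).2 i)) := by
    ext a b
    rw [Matrix.mul_apply]
    simp only [Matrix.of_apply]
    have ha : (a : Fin n).val ≤ t := (hmem _).1 a.2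
    have hb : ¬ (b : Fin n).val ≤ t := fun h => (mem_compl.1 b.2) ((hmem _).2 h)
    have hab : (a : Fin n) < b := by
      rw [Fin.lt_def]; omega
    have h2 : ∑ j, (f a).1 j * (f b).2 j = (f a).1 ⬝ᵥ (f b).2 := rfl
    rw [h2]
    by_cases h : (gr f).Adj a b
    · rw [if_pos h, (gr_adj hab).1 h]
    · rw [if_neg h]
      by_contra hcon
      exact h ((gr_adj hab).2 (ne_zero_eq_one (Ne.symm hcon)))
  rw [h1]
  refine (Matrix.rank_mul_le_left _ _).trans ?_
  refine (Matrix.rank_le_card_width _).trans ?_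
  rw [Fintype.card_fin]

lemma cutRank_single {V : Type} [Fintype V] [DecidableEq V] (G : SimpleGraph V) (v : V) :
    cutRank G {v} ≤ 1 := by
  classical
  unfold cutRank
  refine (Matrix.rank_le_card_height _).trans ?_
  simp

/-- the graph has small (linear) rank-width -/
lemma dec_gr (hr : 1 ≤ r) (f : Fin n → Vec r × Vec r) : ∀ t : ℕ, t < n →
    Dec (gr f) r (univ.filter (fun v : Fin n => v.val ≤ t)) := by
  intro t
  induction t with
  | zero =>
    intro h
    have : univ.filter (fun v : Fin n => v.val ≤ 0) = {⟨0, h⟩} := by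
      ext v
      rw [mem_filter, mem_singleton, Fin.ext_iff]
      simp
    rw [this]
    exact Dec.leaf _ ((cutRank_single _ _).trans hr)
  | succ t ih =>
    intro h
    have : univ.filter (fun v : Fin n => v.val ≤ t + 1) =
        univ.filter (fun v : Fin n => v.val ≤ t) ∪ {⟨t + 1, h⟩} := by
      ext v
      rw [mem_union, mem_filter, mem_filter, mem_singleton, Fin.ext_iff]
      simp only [mem_univ, true_and]
      omega
    have hc := cutRank_init f (t + 1)
    rw [this] at hc ⊢
    refine Dec.node _ _ (ih (by omega)) (Dec.leaf _ ((cutRank_single _ _).trans hr)) ?_ hc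
    rw [disjoint_singleton_right, mem_filter]
    rintro ⟨-, h1⟩
    simp at h1

lemma dec_univ (hr : 1 ≤ r) (hn : 1 ≤ n) (f : Fin n → Vec r × Vec r) : Dec (gr f) r univ := by
  have h := dec_gr hr f (n - 1) (by omega)
  have : univ.filter (fun v : Fin n => v.val ≤ n - 1) = univ := by
    ext v
    rw [mem_filter]
    have := v.2
    simp only [mem_univ, true_and, iff_true]
    omega
  rwa [this] at h

/-- restriction to `k` places -/
lemma restrict {X : Type} [Fintype X] [DecidableEq X] {k : ℕ} (e : Fin k → Fin n)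
    (he : Function.Injective e) (P : (Fin k → X) → Prop) [DecidablePred P] :
    (univ.filter (fun f : Fin n → X => P (f ∘ e))).card ≤
      (univ.filter P).card * Fintype.card X ^ (n - k) := by
  classical
  have hc : Fintype.card {x : Fin n // x ∉ univ.image e} = n - k := by
    rw [Fintype.card_subtype_compl, Fintype.card_fin]
    congr 1
    rw [Fintype.card_coe, card_image_of_injective _ he, card_univ, Fintype.card_fin]
  rw [← hc, ← Fintype.card_fun, ← card_univ (α := {x : Fin n // x ∉ univ.image e} → X),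
    ← card_product]
  refine card_le_card_of_injOn (fun f => (f ∘ e, fun x => f x.1)) ?_ ?_
  · intro f hf
    rw [mem_coe, mem_filter] at hf
    rw [mem_coe, mem_product]
    exact ⟨mem_filter.2 ⟨mem_univ _, hf.2⟩, mem_univ _⟩
  · intro f _ g _ hfg
    simp only [Prod.mk.injEq] at hfg
    funext x
    by_cases hx : x ∈ univ.image e
    · obtain ⟨i, -, rfl⟩ := mem_image.1 hx
      exact congrFun hfg.1 i
    · exact congrFun hfg.2 ⟨x, hx⟩

/-- monochromatic cliques give bad sequences -/
lemma bad_of_clique {k : ℕ} {f : Fin n → Vec r × Vec r} {T : Finset (Fin n)}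
    (h : (gr f).IsNClique k T) : Bad 1 ∅ k (f ∘ (T.orderEmbOfFin h.card_eq)) := by
  refine ⟨fun j u hu => absurd hu (notMem_empty u), fun i j hij => ?_⟩
  have hlt : T.orderEmbOfFin h.card_eq i < T.orderEmbOfFin h.card_eq j :=
    (T.orderEmbOfFin h.card_eq).strictMono hij
  have hadj := h.isClique (T.orderEmbOfFin_mem h.card_eq i) (T.orderEmbOfFin_mem h.card_eq j) hlt.ne
  exact (gr_adj hlt).1 hadj

lemma bad_of_indep {k : ℕ} {f : Fin n → Vec r × Vec r} {T : Finset (Fin n)}
    (h : (gr f)ᶜ.IsNClique k T) : Bad 0 ∅ k (f ∘ (T.orderEmbOfFin h.card_eq)) := by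
  refine ⟨fun j u hu => absurd hu (notMem_empty u), fun i j hij => ?_⟩
  have hlt : T.orderEmbOfFin h.card_eq i < T.orderEmbOfFin h.card_eq j :=
    (T.orderEmbOfFin h.card_eq).strictMono hij
  have hadj := h.isClique (T.orderEmbOfFin_mem h.card_eq i) (T.orderEmbOfFin_mem h.card_eq j) hlt.ne
  rw [SimpleGraph.compl_adj] at hadj
  by_contra hcon
  exact hadj.2 ((gr_adj hlt).2 (ne_zero_eq_one hcon))

/-- **Existence.** -/
theorem exists_good {k : ℕ} (hk : k ≤ n) (h : n ^ k * 2 ^ (1 + k + tri r) < 2 ^ (r * k)) :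
    ∃ f : Fin n → Vec r × Vec r, (gr f).CliqueFree k ∧ (gr f)ᶜ.CliqueFree k := by
  classical
  by_contra hcon
  push Not at hcon
  -- all assignments are bad
  have h1 : (univ : Finset (Fin n → Vec r × Vec r)) ⊆
      (powersetCard k (univ : Finset (Fin n))).attach.biUnion (fun T =>
        univ.filter (fun f : Fin n → Vec r × Vec r =>
          Bad 1 ∅ k (f ∘ (T.1.orderEmbOfFin (mem_powersetCard.1 T.2).2))) ∪
        univ.filter (fun f : Fin n → Vec r × Vec r =>
          Bad 0 ∅ k (f ∘ (T.1.orderEmbOfFin (mem_powersetCard.1 T.2).2)))) := by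
    intro f _
    rw [mem_biUnion]
    by_cases hf : (gr f).CliqueFree k
    · have h2 := hcon f hf
      unfold SimpleGraph.CliqueFree at h2
      push Not at h2
      obtain ⟨T, hT⟩ := h2
      refine ⟨⟨T, mem_powersetCard.2 ⟨subset_univ _, hT.card_eq⟩⟩, mem_attach _ _, ?_⟩
      exact mem_union_right _ (mem_filter.2 ⟨mem_univ _, bad_of_indep hT⟩)
    · unfold SimpleGraph.CliqueFree at hf
      push Not at hf
      obtain ⟨T, hT⟩ := hf
      refine ⟨⟨T, mem_powersetCard.2 ⟨subset_univ _, hT.card_eq⟩⟩, mem_attach _ _, ?_⟩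
      exact mem_union_left _ (mem_filter.2 ⟨mem_univ _, bad_of_clique hT⟩)
  have hX : Fintype.card (Vec r × Vec r) = 2 ^ (2 * r) := by
    rw [Fintype.card_prod]
    simp only [Vec, Fintype.card_fun, ZMod.card, Fintype.card_fin]
    rw [← pow_add]; congr 1; ring
  have h2 : ∀ c : ZMod 2, ∀ T : {T // T ∈ powersetCard k (univ : Finset (Fin n))},
      (univ.filter (fun f : Fin n → Vec r × Vec r =>
          Bad c ∅ k (f ∘ (T.1.orderEmbOfFin (mem_powersetCard.1 T.2).2)))).card ≤
        2 ^ (k + r * k + tri r) * 2 ^ (2 * r * (n - k)) := by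
    intro c T
    refine (restrict _ (T.1.orderEmbOfFin (mem_powersetCard.1 T.2).2).injective _).trans ?_
    rw [hX, ← pow_mul]
    exact Nat.mul_le_mul_right _ (cnt_empty c k)
  have h3 := card_le_card h1
  have h4 : ((powersetCard k (univ : Finset (Fin n))).attach.biUnion (fun T =>
        univ.filter (fun f : Fin n → Vec r × Vec r =>
          Bad 1 ∅ k (f ∘ (T.1.orderEmbOfFin (mem_powersetCard.1 T.2).2))) ∪
        univ.filter (fun f : Fin n → Vec r × Vec r =>
          Bad 0 ∅ k (f ∘ (T.1.orderEmbOfFin (mem_powersetCard.1 T.2).2))))).card ≤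
      n.choose k * (2 * (2 ^ (k + r * k + tri r) * 2 ^ (2 * r * (n - k)))) := by
    refine card_biUnion_le.trans ?_
    refine (sum_le_sum (g := fun _ => 2 * (2 ^ (k + r * k + tri r) * 2 ^ (2 * r * (n - k))))
      fun T _ => ?_).trans ?_
    · refine (card_union_le _ _).trans ?_
      rw [two_mul]
      exact add_le_add (h2 1 T) (h2 0 T)
    · rw [sum_const, card_attach, card_powersetCard, card_univ, Fintype.card_fin, smul_eq_mul]
  rw [card_univ, Fintype.card_fun, hX, Fintype.card_fin, ← pow_mul] at h3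
  have h5 : 2 ^ (2 * r * n) ≤ n ^ k * (2 * (2 ^ (k + r * k + tri r) * 2 ^ (2 * r * (n - k)))) :=
    h3.trans (h4.trans (Nat.mul_le_mul_right _ (Nat.choose_le_pow n k)))
  have e1 : 2 ^ (2 * r * n) = 2 ^ (r * k) * 2 ^ (r * k + 2 * r * (n - k)) := by
    rw [← pow_add]
    congr 1
    obtain ⟨d, rfl⟩ := Nat.exists_eq_add_of_le hk
    rw [Nat.add_sub_cancel_left]
    ring
  have e2 : n ^ k * (2 * (2 ^ (k + r * k + tri r) * 2 ^ (2 * r * (n - k)))) =
      (n ^ k * 2 ^ (1 + k + tri r)) * 2 ^ (r * k + 2 * r * (n - k)) := by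
    rw [pow_add 2 (r * k), pow_add 2 (1 + k) (tri r), pow_add 2 1 k, pow_add 2 (k + r * k) (tri r),
      pow_add 2 k (r * k)]
    ring
  rw [e1, e2] at h5
  have h6 := Nat.le_of_mul_le_mul_right h5 (by positivity)
  omega

end Pool.Agent.T2H11.RW
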