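import Pool.Agent.T2H11.TW.Num

set_option autoImplicit false

/-!
# The recursion for graphs in which large sets have large homogeneous parts
-/

open Finset H110R2 Pool.Agent.T2H11.TW

namespace Pool.Agent.T2H11.RW

/-- every set `S` of at least `D` vertices contains a set `C` of at least `M` vertices such that all
vertices of `S` outside a set of at most `D` vertices are homogeneous to `C` -/
def Struct {V : Type} (G : SimpleGraph V) (M D : ℕ) : Prop :=
  ∀ S : Finset V, D ≤ S.card → ∃ C ⊆ S, M ≤ C.card ∧ ∃ Z ⊆ S, C ⊆ Z ∧ Z.card ≤ D ∧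
    ∀ v ∈ S, v ∉ Z → (∀ c ∈ C, G.Adj c v) ∨ (∀ c ∈ C, ¬ G.Adj c v)

/-- **Main bound.** -/
theorem main_bound {V : Type} [DecidableEq V] {D p : ℕ} {G : SimpleGraph V}
    (h : Struct G (4 ^ p) D)
    {x : ℝ} (hx0 : 0 < x) (hx : x ^ p + x ≤ 1) :
    ∀ (m : ℕ) (S : Finset V), S.card ≤ m → ∀ a b : ℕ, NoCl G a S → NoCl Gᶜ b S →
      ((S.card : ℝ) + D) * x ^ (a + b) ≤ 2 * D := by
  classical
  have hxp : 0 < x ^ p := pow_pos hx0 p
  have hx1 : x ≤ 1 := by linarith
  have hD0 : (0:ℝ) ≤ D := Nat.cast_nonneg D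
  intro m
  induction m with
  | zero =>
    intro S hS a b _ _
    have h0 : (S.card : ℝ) = 0 := by
      have : S.card = 0 := by omega
      rw [this]; simp
    rw [h0, zero_add]
    have : x ^ (a + b) ≤ 1 := pow_le_one₀ hx0.le hx1
    nlinarith
  | succ m ih =>
    intro S hS a b ha hb
    have hxab : x ^ (a + b) ≤ 1 := pow_le_one₀ hx0.le hx1
    have hxab0 : 0 < x ^ (a + b) := pow_pos hx0 _
    rcases lt_or_ge S.card D with hlt | hge
    · have h1 : (S.card : ℝ) < D := by exact_mod_cast hlt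
      have h2 : (S.card : ℝ) + D ≤ 2 * D := by linarith
      calc ((S.card : ℝ) + D) * x ^ (a + b) ≤ ((S.card : ℝ) + D) * 1 :=
            mul_le_mul_of_nonneg_left hxab (by positivity)
        _ ≤ 2 * D := by linarith
    obtain ⟨C, hCS, hCM, Z, hZS, hCZ, hZc, hZ⟩ := h S hge
    have hCne : C.Nonempty := by
      rw [← card_pos]
      exact lt_of_lt_of_le (by positivity) hCM
    obtain ⟨c0, hc0⟩ := hCne
    set SR := (S \ Z).filter (fun v => ∀ c ∈ C, G.Adj c v) with hSR
    set SB := (S \ Z).filter (fun v => ∀ c ∈ C, ¬ G.Adj c v) with hSB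
    have hSRS : SR ⊆ S := (filter_subset _ _).trans sdiff_subset
    have hSBS : SB ⊆ S := (filter_subset _ _).trans sdiff_subset
    have hcov : S ⊆ (SR ∪ SB) ∪ Z := by
      intro v hv
      by_cases hvZ : v ∈ Z
      · simp [hvZ]
      rcases hZ v hv hvZ with h1 | h1
      · refine mem_union_left _ (mem_union_left _ ?_)
        rw [hSR, mem_filter, mem_sdiff]
        exact ⟨⟨hv, hvZ⟩, h1⟩
      · refine mem_union_left _ (mem_union_right _ ?_)
        rw [hSB, mem_filter, mem_sdiff]
        exact ⟨⟨hv, hvZ⟩, h1⟩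
    have hcard : (S.card : ℝ) ≤ SR.card + SB.card + D := by
      have h1 : S.card ≤ SR.card + SB.card + Z.card :=
        (card_le_card hcov).trans ((card_union_le _ _).trans
          (add_le_add (card_union_le _ _) le_rfl))
      have h2 : S.card ≤ SR.card + SB.card + D := by omega
      exact_mod_cast h2
    have hc0S : c0 ∈ S := hCS hc0
    have hc0Z : c0 ∈ Z := hCZ hc0
    have hlt1 : SR.card ≤ m := by
      have h1 : SR ⊂ S := by
        refine (ssubset_iff_of_subset hSRS).2 ⟨c0, hc0S, ?_⟩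
        rw [hSR, mem_filter, mem_sdiff]
        tauto
      have := card_lt_card h1
      omega
    have hlt2 : SB.card ≤ m := by
      have h1 : SB ⊂ S := by
        refine (ssubset_iff_of_subset hSBS).2 ⟨c0, hc0S, ?_⟩
        rw [hSB, mem_filter, mem_sdiff]
        tauto
      have := card_lt_card h1
      omega
    have hadjR : ∀ c ∈ C, ∀ v ∈ SR, G.Adj c v := by
      intro c hc v hv
      rw [hSR, mem_filter] at hv
      exact hv.2 c hc
    have hadjB : ∀ c ∈ C, ∀ v ∈ SB, Gᶜ.Adj c v := by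
      intro c hc v hv
      rw [hSB, mem_filter, mem_sdiff] at hv
      rw [SimpleGraph.compl_adj]
      refine ⟨?_, hv.2 c hc⟩
      rintro rfl
      exact hv.1.2 (hCZ hc)
    -- combine
    have fin : ∀ e1 e2 : ℝ, (SR.card + D) * x ^ (a + b) ≤ 2 * D * e1 →
        (SB.card + D) * x ^ (a + b) ≤ 2 * D * e2 → e1 + e2 ≤ 1 →
        ((S.card : ℝ) + D) * x ^ (a + b) ≤ 2 * D := by
      intro e1 e2 h1 h2 h3
      have h4 : ((S.card : ℝ) + D) * x ^ (a + b) ≤ (SR.card + D + (SB.card + D)) * x ^ (a + b) :=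
        mul_le_mul_of_nonneg_right (by linarith) hxab0.le
      have h5 : 2 * D * (e1 + e2) ≤ 2 * D * 1 := mul_le_mul_of_nonneg_left h3 (by positivity)
      nlinarith
    rcases exists_mono G p hCM with ⟨T, hTC, hT⟩ | ⟨T, hTC, hT⟩
    · -- red clique
      have hap : p ≤ a := by
        by_contra hcon
        exact ha.of_le (by omega : a ≤ p) T (hTC.trans hCS) hT
      obtain ⟨a', rfl⟩ : ∃ a', a = a' + p := ⟨a - p, by omega⟩
      rcases b with _ | b
      · exact absurd hb (not_noCl_zero _ _)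
      have g1 := ih SR hlt1 a' (b + 1) (noCl_join ha hCS hSRS hadjR hTC hT) (hb.mono hSRS)
      have g2 := ih SB hlt2 (a' + p) b (ha.mono hSBS) (hb.step hc0S hSBS (hadjB c0 hc0))
      refine fin (x ^ p) x ?_ ?_ hx
      · have e : x ^ (a' + p + (b + 1)) = x ^ (a' + (b + 1)) * x ^ p := by
          rw [← pow_add]; congr 1; omega
        rw [e, ← mul_assoc]
        exact mul_le_mul_of_nonneg_right g1 hxp.le
      · have e : x ^ (a' + p + (b + 1)) = x ^ (a' + p + b) * x := by
          rw [← pow_succ]; congr 1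
        rw [e, ← mul_assoc]
        exact mul_le_mul_of_nonneg_right g2 hx0.le
    · -- blue clique
      have hbp : p ≤ b := by
        by_contra hcon
        exact hb.of_le (by omega : b ≤ p) T (hTC.trans hCS) hT
      obtain ⟨b', rfl⟩ : ∃ b', b = b' + p := ⟨b - p, by omega⟩
      rcases a with _ | a
      · exact absurd ha (not_noCl_zero _ _)
      have g1 := ih SR hlt1 a (b' + p) (ha.step hc0S hSRS (hadjR c0 hc0)) (hb.mono hSRS)
      have g2 := ih SB hlt2 (a + 1) b' (ha.mono hSBS) (noCl_join hb hCS hSBS hadjB hTC hT)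
      refine fin x (x ^ p) ?_ ?_ (by linarith)
      · have e : x ^ (a + 1 + (b' + p)) = x ^ (a + (b' + p)) * x := by
          rw [← pow_succ]; congr 1; omega
        rw [e, ← mul_assoc]
        exact mul_le_mul_of_nonneg_right g1 hx0.le
      · have e : x ^ (a + 1 + (b' + p)) = x ^ (a + 1 + b') * x ^ p := by
          rw [← pow_add]; congr 1; omega
        rw [e, ← mul_assoc]
        exact mul_le_mul_of_nonneg_right g2 hxp.le


/-- finite bound -/
theorem finite_upper {V : Type} [Fintype V] {D k p : ℕ} {G : SimpleGraph V}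
    (h : Struct G (4 ^ p) D)
    (hr : G.CliqueFree k) (hb : Gᶜ.CliqueFree k) (hp : 2 ≤ p) :
    (Fintype.card V : ℝ) ≤ 2 * D * Real.exp (4 * k * Real.log p / p) := by
  classical
  have h1 := main_bound h (Real.exp_pos (-(2 * Real.log p / p))) (par_ok hp)
    (Finset.univ : Finset V).card Finset.univ le_rfl k k (noCl_of_cliqueFree hr)
    (noCl_of_cliqueFree hb)
  rw [← Real.exp_nat_mul, card_univ] at h1
  push_cast at h1
  have e : ((k : ℝ) + k) * -(2 * Real.log p / p) = -(4 * k * Real.log p / p) := by ring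
  rw [e, Real.exp_neg] at h1
  have h2 : 0 < Real.exp (4 * k * Real.log p / p) := Real.exp_pos _
  have h3 : ((Fintype.card V : ℝ) + D) ≤ 2 * D * Real.exp (4 * k * Real.log p / p) := by
    have := mul_le_mul_of_nonneg_right h1 h2.le
    rwa [mul_assoc, inv_mul_cancel₀ h2.ne', mul_one] at this
  have h4 : (0 : ℝ) ≤ D := Nat.cast_nonneg D
  linarith

/-- `log n ≤ log s + 8 √(k log k)` if all sets have the structure with `D = s 4 ^ p` -/
theorem log_upper {V : Type} [Fintype V] {s k : ℕ} {G : SimpleGraph V} (hk : 2 ≤ k) (hs : 1 ≤ s)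
    (h : ∀ p : ℕ, Struct G (4 ^ p) (s * 4 ^ p)) (hr : G.CliqueFree k) (hb : Gᶜ.CliqueFree k) :
    Real.log (Fintype.card V) ≤ Real.log s + 8 * Real.sqrt (k * Real.log k) := by
  have hkR : (2 : ℝ) ≤ k := by exact_mod_cast hk
  have hsR : (1 : ℝ) ≤ s := by exact_mod_cast hs
  have hk0 : (0 : ℝ) < k := by linarith
  have hl2 := Real.log_two_gt_d9
  have hlk : Real.log 2 ≤ Real.log k := Real.log_le_log (by norm_num) hkR
  set P : ℝ := Real.sqrt (k * Real.log k) with hP
  have hPsq : P ^ 2 = k * Real.log k := Real.sq_sqrt (by positivity)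
  have hP1 : 1.17 ≤ P := by
    rw [hP]
    apply Real.le_sqrt_of_sq_le
    nlinarith
  have hPk : P ≤ k := by
    rw [hP]
    apply Real.sqrt_le_iff.2
    refine ⟨hk0.le, ?_⟩
    have : Real.log k ≤ k := (Real.log_le_sub_one_of_pos hk0).trans (by linarith)
    nlinarith
  set p : ℕ := ⌈P⌉₊ with hp
  have hpP : P ≤ p := Nat.le_ceil P
  have hpP1 : (p : ℝ) < P + 1 := Nat.ceil_lt_add_one (by linarith)
  have hp2 : 2 ≤ p := by
    have : (1 : ℝ) < p := by linarith
    have : 1 < p := by exact_mod_cast this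
    omega
  have hpk : p ≤ k := Nat.ceil_le.2 hPk
  have hp0 : (0 : ℝ) < p := by linarith
  rcases Nat.eq_zero_or_pos (Fintype.card V) with h0 | h0
  · rw [h0]
    simp only [Nat.cast_zero, Real.log_zero]
    have : 0 ≤ Real.log (s : ℝ) := Real.log_nonneg hsR
    positivity
  have hn0 : (0 : ℝ) < Fintype.card V := by exact_mod_cast h0
  have h1 := Real.log_le_log hn0 (finite_upper (h p) hr hb hp2)
  push_cast at h1
  rw [Real.log_mul (by positivity) (Real.exp_pos _).ne', Real.log_exp,
    Real.log_mul (by norm_num) (by positivity), Real.log_mul (by positivity) (by positivity),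
    Real.log_pow] at h1
  have h2 : 4 * k * Real.log p / p ≤ 4 * P := by
    rw [div_le_iff₀ hp0]
    have h3 : Real.log p ≤ Real.log k := Real.log_le_log hp0 (by exact_mod_cast hpk)
    have h4 : 4 * (k : ℝ) * Real.log p ≤ 4 * P ^ 2 := by
      rw [hPsq]; nlinarith
    nlinarith
  have h3 := Pool.Agent.R51.Stair.log_four_lt
  have h4 : (p : ℝ) * Real.log 4 ≤ (P + 1) * 1.39 := by
    have h5 : 0 ≤ Real.log 4 := Real.log_nonneg (by norm_num)
    nlinarith
  have h5 := Real.log_two_lt_d9
  linarith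

end Pool.Agent.T2H11.RW
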